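import Mathlib
import Pool.Agent.Helper47.COD.Basic
import Pool.Agent.Helper47.COD.Rigid

set_option autoImplicit false

open Pool.Agent.Helper47.COD

namespace Pool.Agent.Results.MP_e29dfb_an.FiniteUnionCriterion

/-- The compact set `[0,1] ∪ {2} ∪ {2 + 1/(n+1) : n ∈ ℕ}`. -/
def combSet : Set ℝ :=
  Set.Icc 0 1 ∪ ({2} ∪ Set.range (fun n : ℕ => (2 : ℝ) + 1 / ((n : ℝ) + 1)))

lemma comb_not_fin (F : Finset (ℝ × ℝ)) : combSet ≠ ⋃ p ∈ F, Set.Icc p.1 p.2 := by
  classical
  intro h
  -- each point `2 + 1/(n+2)` lies in an interval of the family; two of them in the same one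
  have hmem : ∀ n : ℕ, ∃ p ∈ F, (2 : ℝ) + 1 / ((n : ℝ) + 1) ∈ Set.Icc p.1 p.2 := by
    intro n
    have h1 : (2 : ℝ) + 1 / ((n : ℝ) + 1) ∈ combSet := Or.inr (Or.inr ⟨n, rfl⟩)
    rw [h] at h1
    simpa only [Set.mem_iUnion, exists_prop] using h1
  choose g hgF hg using hmem
  obtain ⟨m, -, n, -, hmn, he⟩ := Set.infinite_univ.exists_ne_map_eq_of_mapsTo
    (f := g) (t := (F : Set (ℝ × ℝ))) (fun n _ => hgF n) F.finite_toSet
  -- all numbers between them belong to the set
  have hseg : ∀ y : ℝ, y ∈ Set.uIcc ((2 : ℝ) + 1 / ((m : ℝ) + 1)) (2 + 1 / ((n : ℝ) + 1)) →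
      y ∈ combSet := by
    intro y hy
    rw [h]
    simp only [Set.mem_iUnion, exists_prop]
    refine ⟨g m, hgF m, ?_⟩
    have h2 := hg m
    have h3 := hg n
    rw [← he] at h3
    exact Set.ordConnected_Icc.uIcc_subset h2 h3 hy
  have main : ∀ m n : ℕ, m < n → (∀ y : ℝ, 2 + 1 / ((n : ℝ) + 1) ≤ y → y ≤ 2 + 1 / ((m : ℝ) + 1) →
      y ∈ combSet) → False := by
    intro m n hlt hin
    have hpos : (0 : ℝ) < 1 / ((m : ℝ) + 2) := by positivity
    have hlt1 : 1 / ((m : ℝ) + 2) < 1 / ((m : ℝ) + 1) := by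
      apply one_div_lt_one_div_of_lt <;> [positivity; linarith]
    have hlt2 : 1 / ((n : ℝ) + 1) ≤ 1 / ((m : ℝ) + 2) := by
      apply one_div_le_one_div_of_le (by positivity)
      have : (m : ℝ) + 1 ≤ n := by exact_mod_cast hlt
      linarith
    have hy := hin (2 + (1 / ((m : ℝ) + 1) + 1 / ((m : ℝ) + 2)) / 2) (by linarith) (by linarith)
    rcases hy with hy | hy | ⟨k, hk⟩
    · linarith [hy.2]
    · rw [Set.mem_singleton_iff] at hy
      linarith
    · simp only at hk
      rcases Nat.lt_or_ge m k with hmk | hmk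
      · have h1 : (m : ℝ) + 2 ≤ (k : ℝ) + 1 := by
          have : (m : ℝ) + 1 ≤ k := by exact_mod_cast hmk
          linarith
        have h2 : 1 / ((k : ℝ) + 1) ≤ 1 / ((m : ℝ) + 2) :=
          one_div_le_one_div_of_le (by positivity) h1
        linarith
      · have h1 : (k : ℝ) + 1 ≤ (m : ℝ) + 1 := by
          have : (k : ℝ) ≤ m := by exact_mod_cast hmk
          linarith
        have h2 : 1 / ((m : ℝ) + 1) ≤ 1 / ((k : ℝ) + 1) :=
          one_div_le_one_div_of_le (by positivity) h1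
        linarith
  have anti : ∀ a b : ℕ, a ≤ b → (1 : ℝ) / ((b : ℝ) + 1) ≤ 1 / ((a : ℝ) + 1) := by
    intro a b hab
    apply one_div_le_one_div_of_le (by positivity)
    have : (a : ℝ) ≤ b := by exact_mod_cast hab
    linarith
  rcases lt_or_gt_of_ne hmn with hlt | hlt
  · refine main m n hlt (fun y h1 h2 => hseg y ?_)
    rw [Set.uIcc_of_ge (by linarith [anti m n hlt.le])]
    exact ⟨h1, h2⟩
  · refine main n m hlt (fun y h1 h2 => hseg y ?_)
    rw [Set.uIcc_of_le (by linarith [anti n m hlt.le])]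
    exact ⟨h1, h2⟩

lemma comb_compact : IsCompact combSet := by
  refine isCompact_Icc.union ?_
  have h : Filter.Tendsto (fun n : ℕ => (2 : ℝ) + 1 / ((n : ℝ) + 1)) Filter.atTop (nhds 2) := by
    simpa using tendsto_one_div_add_atTop_nhds_zero_nat.const_add (2 : ℝ)
  rw [Set.singleton_union]
  exact h.isCompact_insert_range

lemma comb_nonneg : combSet ⊆ Set.Ici 0 := by
  intro α hα
  rcases hα with h | h | ⟨m, hm⟩
  · exact h.1
  · rw [Set.mem_singleton_iff] at h
    rw [h]; simp
  · have : (0 : ℝ) ≤ 1 / ((m : ℝ) + 1) := by positivity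
    show (0 : ℝ) ≤ α
    rw [← hm]
    simp only
    linarith

/-- **Centers of distances of compact sets.**  Let `C` be a compact set of nonnegative reals that
contains an interval `[0,u]` with `u > 0`. Then `C` is the center of distances of a nonempty compact
set of reals if and only if `C` is the union of finitely many compact intervals. In particular the
compact set `[0,1] ∪ {2} ∪ {2 + 1/(n+1) : n ∈ ℕ}` of nonnegative reals, which contains `0`, is not
the center of distances of any compact set of reals. -/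
theorem result :
    (∀ (C : Set ℝ) (u : ℝ), IsCompact C → C ⊆ Set.Ici 0 → 0 < u → Set.Icc 0 u ⊆ C →
      ((∃ K : Set ℝ, IsCompact K ∧ K.Nonempty ∧ centerOfDistances K = C) ↔
        ∃ F : Finset (ℝ × ℝ), C = ⋃ p ∈ F, Set.Icc p.1 p.2)) ∧
    (IsCompact combSet ∧ (0 : ℝ) ∈ combSet ∧ combSet ⊆ Set.Ici 0 ∧
      ∀ K : Set ℝ, IsCompact K → centerOfDistances K ≠ combSet) := by
  refine ⟨?_, comb_compact, Or.inl ⟨le_rfl, zero_le_one⟩, comb_nonneg, ?_⟩
  · intro C u hC hC0 hu hsub
    constructor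
    · rintro ⟨K, hK, -, rfl⟩
      exact rigid K hK u hu hsub hC
    · rintro ⟨F, rfl⟩
      exact realise F (hsub ⟨le_rfl, hu.le⟩) hC0
  · intro K hK h
    obtain ⟨F, hF⟩ := rigid K hK 1 one_pos (by rw [h]; exact Set.subset_union_left)
      (by rw [h]; exact comb_compact)
    exact comb_not_fin F (h.symm.trans hF)

end Pool.Agent.Results.MP_e29dfb_an.FiniteUnionCriterion
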